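import Pool.Agent.W200.MR.Stm

/-!
# Part S_RO: few rough integers
-/

open Finset Filter Topology MeasureTheory

namespace Pool.Agent.W701.MR

open Pool.Agent.W200.MR

theorem exists_prod {δ : ℝ} (hδ : 0 < δ) :
    ∃ z : ℕ, ∏ p ∈ (range z).filter Nat.Prime, (1 - (p : ℝ)⁻¹) ≤ δ := by
  have h0 : ∀ n : ℕ, 0 ≤ Set.indicator {p : ℕ | p.Prime} (fun n : ℕ => (1 : ℝ) / n) n := by
    intro n
    apply Set.indicator_nonneg
    intro x _
    positivity
  have h1 := (not_summable_iff_tendsto_nat_atTop_of_nonneg h0).1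
    not_summable_one_div_on_primes
  obtain ⟨z, hz⟩ := (h1.eventually_ge_atTop (-Real.log δ)).exists
  refine ⟨z, ?_⟩
  have h2 : ∑ i ∈ range z, Set.indicator {p : ℕ | p.Prime} (fun n : ℕ => (1 : ℝ) / n) i =
      ∑ p ∈ (range z).filter Nat.Prime, (p : ℝ)⁻¹ := by
    rw [Finset.sum_filter]
    refine Finset.sum_congr rfl fun p _ => ?_
    by_cases hp : p.Prime
    · rw [Set.indicator_of_mem (show p ∈ {p : ℕ | p.Prime} from hp), if_pos hp, one_div]
    · rw [Set.indicator_of_notMem (show p ∉ {p : ℕ | p.Prime} from hp), if_neg hp]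
  rw [h2] at hz
  calc ∏ p ∈ (range z).filter Nat.Prime, (1 - (p : ℝ)⁻¹)
      ≤ ∏ p ∈ (range z).filter Nat.Prime, Real.exp (-(p : ℝ)⁻¹) := by
        apply Finset.prod_le_prod
        · intro p hp
          have h3 : (1 : ℝ) ≤ p := by exact_mod_cast (Finset.mem_filter.1 hp).2.one_lt.le
          have h4 : (p : ℝ)⁻¹ ≤ 1 := inv_le_one_of_one_le₀ h3
          linarith
        · intro p _
          exact Real.one_sub_le_exp_neg _
    _ = Real.exp (-∑ p ∈ (range z).filter Nat.Prime, (p : ℝ)⁻¹) := by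
        rw [← Real.exp_sum, Finset.sum_neg_distrib]
    _ ≤ Real.exp (Real.log δ) := by
        apply Real.exp_le_exp.2
        linarith
    _ = δ := Real.exp_log hδ

theorem t_RO : S_RO := by
  classical
  intro κ hκ
  obtain ⟨z, hz⟩ := exists_prod (show (0 : ℝ) < κ / 2 by positivity)
  set P : ℕ := ∏ p ∈ (range z).filter Nat.Prime, p with hP
  have hP0 : 0 < P := Finset.prod_pos fun p hp => (Finset.mem_filter.1 hp).2.pos
  have hPf : P.primeFactors = (range z).filter Nat.Prime :=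
    Nat.primeFactors_prod fun p hp => (Finset.mem_filter.1 hp).2
  have hPR : (0 : ℝ) < P := by exact_mod_cast hP0
  have htot : (P.totient : ℝ) ≤ P * (κ / 2) := by
    have h1 := Nat.totient_eq_mul_prod_factors P
    rw [hPf] at h1
    have h2 : (P.totient : ℝ) = P * ∏ p ∈ (range z).filter Nat.Prime, (1 - (p : ℝ)⁻¹) := by
      have h3 := congrArg (fun q : ℚ => (q : ℝ)) h1
      push_cast at h3
      exact h3
    rw [h2]
    exact mul_le_mul_of_nonneg_left hz hPR.le
  refine ⟨max z ⌈2 * P / κ⌉₊, ?_⟩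
  intro T hT N hN
  have hTz : z ≤ T := (le_max_left _ _).trans hT
  have hTP : 2 * P / κ ≤ T := by
    have h1 : (⌈2 * (P : ℝ) / κ⌉₊ : ℝ) ≤ T := by
      exact_mod_cast (le_max_right _ _).trans hT
    exact (Nat.le_ceil _).trans h1
  have hNR : (T : ℝ) ≤ N := by exact_mod_cast hN
  have hsub : (Icc 1 N).filter (fun d => Rough T d) ⊆
      (Ico 1 (1 + N)).filter (fun x => P.Coprime x) := by
    intro d hd
    rw [Finset.mem_filter, Finset.mem_Icc] at hd
    rw [Finset.mem_filter, Finset.mem_Ico]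
    refine ⟨⟨hd.1.1, by omega⟩, ?_⟩
    rw [hP, Nat.coprime_prod_left_iff]
    intro p hp
    have hp' := Finset.mem_filter.1 hp
    rw [Nat.Prime.coprime_iff_not_dvd hp'.2]
    intro hdvd
    have h1 := hd.2 p hp'.2 hdvd
    have h2 := Finset.mem_range.1 hp'.1
    omega
  have hcard : ((Icc 1 N).filter (fun d => Rough T d)).card ≤ P.totient * (N / P + 1) :=
    (Finset.card_le_card hsub).trans (Nat.Ico_filter_coprime_le 1 N hP0.ne')
  have hcardR : (((Icc 1 N).filter (fun d => Rough T d)).card : ℝ) ≤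
      (P.totient : ℝ) * (((N / P : ℕ) : ℝ) + 1) := by
    exact_mod_cast hcard
  have hdiv : ((N / P : ℕ) : ℝ) ≤ (N : ℝ) / P := Nat.cast_div_le
  have htotP : (P.totient : ℝ) ≤ P := by exact_mod_cast Nat.totient_le P
  calc (((Icc 1 N).filter (fun d => Rough T d)).card : ℝ)
      ≤ (P.totient : ℝ) * (((N / P : ℕ) : ℝ) + 1) := hcardR
    _ ≤ (P.totient : ℝ) * ((N : ℝ) / P + 1) := by gcongr
    _ = (P.totient : ℝ) * ((N : ℝ) / P) + P.totient := by ring
    _ ≤ P * (κ / 2) * ((N : ℝ) / P) + P := by gcongr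
    _ = κ / 2 * N + P := by field_simp
    _ ≤ κ / 2 * N + κ / 2 * N := by
        have h3 : (P : ℝ) ≤ κ / 2 * T := by
          rw [div_le_iff₀ hκ] at hTP
          linarith
        have h4 : κ / 2 * (T : ℝ) ≤ κ / 2 * N := by gcongr
        linarith
    _ = κ * N := by ring

end Pool.Agent.W701.MR
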